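import Pool.Agent.H401R2.EM

/-!
# The zeta function on the critical line is close to its partial sum of length about `t`

Summation by parts with the weights `1 / (1 - (1 + 1/n)^(-s))`.
-/

set_option autoImplicit false

namespace Pool.Agent.Y210.R9

open Finset Filter Topology

lemma ell_nonneg {y : ℝ} (hy : 1 ≤ y) : 0 ≤ Real.log (1 + 1 / y) := by
  refine Real.log_nonneg ?_
  have : 0 ≤ 1 / y := by positivity
  linarith

lemma ell_le {y : ℝ} (hy : 1 ≤ y) : Real.log (1 + 1 / y) ≤ 1 / y := by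
  have h0 : 0 ≤ 1 / y := by positivity
  have h := Real.log_le_sub_one_of_pos (x := 1 + 1 / y) (by linarith)
  linarith

lemma le_ell {y : ℝ} (hy : 1 ≤ y) : 1 / (y + 1) ≤ Real.log (1 + 1 / y) := by
  have h0 : 0 ≤ 1 / y := by positivity
  have h := Real.one_sub_inv_le_log_of_pos (x := 1 + 1 / y) (by linarith)
  have h2 : 1 - (1 + 1 / y)⁻¹ = 1 / (y + 1) := by
    have : y ≠ 0 := by linarith
    have : y + 1 ≠ 0 := by linarith
    field_simp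
    ring
  linarith

lemma diff_ell {x : ℝ} (hx : 2 ≤ x) :
    Real.log (1 + 1 / (x - 1)) - Real.log (1 + 1 / x) = Real.log (x ^ 2 / (x ^ 2 - 1)) := by
  have h0 : 0 ≤ 1 / x := by positivity
  have h1 : 0 ≤ 1 / (x - 1) := div_nonneg one_pos.le (by linarith)
  rw [← Real.log_div (by linarith) (by linarith)]
  congr 1
  have h2 : x ≠ 0 := by linarith
  have h3 : x - 1 ≠ 0 := by linarith
  have h4 : x + 1 ≠ 0 := by linarith
  have h5 : x ^ 2 - 1 ≠ 0 := by nlinarith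
  rw [div_eq_div_iff (by linarith) h5]
  field_simp
  ring

lemma le_diff {x : ℝ} (hx : 2 ≤ x) :
    1 / x ^ 2 ≤ Real.log (1 + 1 / (x - 1)) - Real.log (1 + 1 / x) := by
  rw [diff_ell hx]
  have h1 : 0 < x ^ 2 - 1 := by nlinarith
  have h2 : 0 < x ^ 2 := by positivity
  have h := Real.one_sub_inv_le_log_of_pos (x := x ^ 2 / (x ^ 2 - 1)) (by positivity)
  have h3 : 1 - (x ^ 2 / (x ^ 2 - 1))⁻¹ = 1 / x ^ 2 := by
    rw [inv_div]
    field_simp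
    ring
  linarith

lemma diff_le {x : ℝ} (hx : 2 ≤ x) :
    Real.log (1 + 1 / (x - 1)) - Real.log (1 + 1 / x) ≤ 1 / (x ^ 2 - 1) := by
  rw [diff_ell hx]
  have h1 : 0 < x ^ 2 - 1 := by nlinarith
  have h2 : 0 < x ^ 2 := by positivity
  have h := Real.log_le_sub_one_of_pos (x := x ^ 2 / (x ^ 2 - 1)) (by positivity)
  have h3 : x ^ 2 / (x ^ 2 - 1) - 1 = 1 / (x ^ 2 - 1) := by
    field_simp
    ring
  linarith

/-- `1 - (1 + 1/y)^(-s)` -/
noncomputable def AA (s : ℂ) (y : ℝ) : ℂ := 1 - Complex.exp (-(s * (Real.log (1 + 1 / y) : ℝ)))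

lemma norm_w (s : ℂ) {y : ℝ} (hy : 1 ≤ y) :
    ‖s * ((Real.log (1 + 1 / y) : ℝ) : ℂ)‖ = ‖s‖ * Real.log (1 + 1 / y) := by
  rw [norm_mul, Complex.norm_real, Real.norm_eq_abs, abs_of_nonneg (ell_nonneg hy)]

lemma norm_w_le (s : ℂ) {y : ℝ} (hy : 1 ≤ y) :
    ‖s * ((Real.log (1 + 1 / y) : ℝ) : ℂ)‖ ≤ ‖s‖ / y := by
  rw [norm_w s hy]
  calc ‖s‖ * Real.log (1 + 1 / y) ≤ ‖s‖ * (1 / y) :=
        mul_le_mul_of_nonneg_left (ell_le hy) (norm_nonneg s)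
    _ = ‖s‖ / y := mul_one_div _ _

lemma AA_w {s : ℂ} {y : ℝ} (hy : 1 ≤ y) (h : ‖s‖ / y ≤ 1) :
    ‖AA s y - s * ((Real.log (1 + 1 / y) : ℝ) : ℂ)‖ ≤
      ‖s * ((Real.log (1 + 1 / y) : ℝ) : ℂ)‖ ^ 2 := by
  have h1 := norm_w_le s hy
  have h2 := Complex.norm_exp_sub_one_sub_id_le
    (x := -(s * ((Real.log (1 + 1 / y) : ℝ) : ℂ))) (by rw [norm_neg]; linarith)
  rw [norm_neg] at h2
  refine le_trans (le_of_eq ?_) h2
  rw [← norm_neg]
  congr 1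
  unfold AA
  ring

lemma AA_low {s : ℂ} {y : ℝ} (hy : 1 ≤ y) (h : ‖s‖ / y ≤ 3 / 5) :
    ‖s‖ / (5 * y) ≤ ‖AA s y‖ := by
  have h1 := norm_w_le s hy
  have h2 := AA_w hy (h.trans (by norm_num))
  have h3 : ‖s * ((Real.log (1 + 1 / y) : ℝ) : ℂ)‖ ≤
      ‖AA s y‖ + ‖AA s y - s * ((Real.log (1 + 1 / y) : ℝ) : ℂ)‖ := by
    have h4 := norm_sub_le (AA s y) (AA s y - s * ((Real.log (1 + 1 / y) : ℝ) : ℂ))
    rwa [sub_sub_cancel] at h4
  have h5 : ‖s‖ / (y + 1) ≤ ‖s * ((Real.log (1 + 1 / y) : ℝ) : ℂ)‖ := by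
    rw [norm_w s hy, div_eq_mul_one_div]
    exact mul_le_mul_of_nonneg_left (le_ell hy) (norm_nonneg s)
  have h6 : ‖s‖ / (2 * y) ≤ ‖s‖ / (y + 1) :=
    div_le_div_of_nonneg_left (norm_nonneg s) (by linarith) (by linarith)
  have h7 : ‖s‖ / (5 * y) = ‖s‖ / (2 * y) * (2 / 5) := by
    field_simp
  set W := ‖s * ((Real.log (1 + 1 / y) : ℝ) : ℂ)‖
  have h8 : 0 ≤ W := norm_nonneg _
  nlinarith

lemma AA_near {s : ℂ} {x : ℝ} (hx : 1 ≤ x) (hs : 1 ≤ ‖s‖) (h : ‖s‖ / x ≤ 1) :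
    ‖AA s x - s / x‖ ≤ 2 * (‖s‖ / x) ^ 2 := by
  have h1 := norm_w_le s hx
  have h2 := AA_w hx h
  have h3 : ‖s * ((Real.log (1 + 1 / x) : ℝ) : ℂ) - s / x‖ ≤ (‖s‖ / x) ^ 2 := by
    have h4 : s * ((Real.log (1 + 1 / x) : ℝ) : ℂ) - s / x =
        s * ((Real.log (1 + 1 / x) - 1 / x : ℝ) : ℂ) := by
      push_cast
      ring
    rw [h4, norm_mul, Complex.norm_real, Real.norm_eq_abs]
    have h5 : |Real.log (1 + 1 / x) - 1 / x| ≤ 1 / x ^ 2 := by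
      rw [abs_le]
      have h6 := ell_le hx
      have h7 := le_ell hx
      have h8 : 1 / x - 1 / (x + 1) ≤ 1 / x ^ 2 := by
        have h9 : 1 / x - 1 / (x + 1) = 1 / (x * (x + 1)) := by
          field_simp
          ring
        rw [h9]
        exact one_div_le_one_div_of_le (by positivity) (by nlinarith)
      have h10 : 0 ≤ 1 / x ^ 2 := by positivity
      constructor <;> linarith
    calc ‖s‖ * |Real.log (1 + 1 / x) - 1 / x| ≤ ‖s‖ * (1 / x ^ 2) :=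
          mul_le_mul_of_nonneg_left h5 (norm_nonneg s)
      _ ≤ ‖s‖ ^ 2 * (1 / x ^ 2) := by
          refine mul_le_mul_of_nonneg_right ?_ (by positivity)
          nlinarith
      _ = (‖s‖ / x) ^ 2 := by ring
  have h4 : ‖s * ((Real.log (1 + 1 / x) : ℝ) : ℂ)‖ ^ 2 ≤ (‖s‖ / x) ^ 2 :=
    pow_le_pow_left₀ (norm_nonneg _) h1 2
  calc ‖AA s x - s / x‖ = ‖(AA s x - s * ((Real.log (1 + 1 / x) : ℝ) : ℂ)) +
        (s * ((Real.log (1 + 1 / x) : ℝ) : ℂ) - s / x)‖ := by congr 1; ring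
    _ ≤ _ := norm_add_le _ _
    _ ≤ 2 * (‖s‖ / x) ^ 2 := by linarith

lemma AA_near' {s : ℂ} {x : ℝ} (hx : 2 ≤ x) (hs : 1 ≤ ‖s‖) (h : ‖s‖ / (x - 1) ≤ 1) :
    ‖AA s (x - 1) - s / x‖ ≤ 6 * (‖s‖ / x) ^ 2 := by
  have hx1 : 1 ≤ x - 1 := by linarith
  have h1 := norm_w_le s hx1
  have h2 := AA_w hx1 h
  have h3 : ‖s * ((Real.log (1 + 1 / (x - 1)) : ℝ) : ℂ) - s / x‖ ≤ 2 * (‖s‖ / x) ^ 2 := by
    have h4 : s * ((Real.log (1 + 1 / (x - 1)) : ℝ) : ℂ) - s / x =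
        s * ((Real.log (1 + 1 / (x - 1)) - 1 / x : ℝ) : ℂ) := by
      push_cast
      ring
    rw [h4, norm_mul, Complex.norm_real, Real.norm_eq_abs]
    have h5 : |Real.log (1 + 1 / (x - 1)) - 1 / x| ≤ 2 / x ^ 2 := by
      rw [abs_le]
      have h6 := ell_le hx1
      have h7 := le_ell hx1
      rw [sub_add_cancel] at h7
      have h8 : 1 / (x - 1) - 1 / x ≤ 2 / x ^ 2 := by
        have h11 : x - 1 ≠ 0 := by linarith
        have h9 : 1 / (x - 1) - 1 / x = 1 / (x * (x - 1)) := by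
          field_simp
          ring
        rw [h9, div_le_div_iff₀ (by nlinarith) (by positivity)]
        nlinarith
      have h10 : 0 ≤ 2 / x ^ 2 := by positivity
      constructor <;> linarith
    calc ‖s‖ * |Real.log (1 + 1 / (x - 1)) - 1 / x| ≤ ‖s‖ * (2 / x ^ 2) :=
          mul_le_mul_of_nonneg_left h5 (norm_nonneg s)
      _ ≤ ‖s‖ ^ 2 * (2 / x ^ 2) := by
          refine mul_le_mul_of_nonneg_right ?_ (by positivity)
          nlinarith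
      _ = 2 * (‖s‖ / x) ^ 2 := by ring
  have h4 : ‖s * ((Real.log (1 + 1 / (x - 1)) : ℝ) : ℂ)‖ ^ 2 ≤ (2 * (‖s‖ / x)) ^ 2 := by
    refine pow_le_pow_left₀ (norm_nonneg _) (h1.trans ?_) 2
    have h5 : 2 * (‖s‖ / x) = ‖s‖ / (x / 2) := by field_simp
    rw [h5]
    exact div_le_div_of_nonneg_left (norm_nonneg s) (by linarith) (by linarith)
  calc ‖AA s (x - 1) - s / x‖ = ‖(AA s (x - 1) - s * ((Real.log (1 + 1 / (x - 1)) : ℝ) : ℂ)) +
        (s * ((Real.log (1 + 1 / (x - 1)) : ℝ) : ℂ) - s / x)‖ := by congr 1; ring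
    _ ≤ _ := norm_add_le _ _
    _ ≤ 6 * (‖s‖ / x) ^ 2 := by nlinarith

lemma AA_diff {s : ℂ} {x : ℝ} (hx : 2 ≤ x) (hs : 1 ≤ ‖s‖) (h : ‖s‖ / (x - 1) ≤ 3 / 5) :
    ‖AA s (x - 1) - AA s x - s / x ^ 2‖ ≤ 11 * (‖s‖ ^ 2 / x ^ 3) := by
  have hx0 : 0 < x := by linarith
  have hx1 : 1 ≤ x - 1 := by linarith
  have hsx : ‖s‖ / x ≤ 3 / 5 :=
    (div_le_div_of_nonneg_left (norm_nonneg s) (by linarith) (by linarith)).trans h
  obtain ⟨d, hd⟩ : ∃ d : ℝ, d = Real.log (1 + 1 / (x - 1)) - Real.log (1 + 1 / x) := ⟨_, rfl⟩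
  have hd1 : 1 / x ^ 2 ≤ d := hd ▸ le_diff hx
  have hd2 : d ≤ 1 / (x ^ 2 - 1) := hd ▸ diff_le hx
  have hq : 0 < x ^ 2 - 1 := by nlinarith
  have hd3 : 1 / (x ^ 2 - 1) ≤ 2 / x ^ 2 := by
    rw [div_le_div_iff₀ hq (by positivity)]
    nlinarith
  have hd4 : d - 1 / x ^ 2 ≤ 1 / x ^ 3 := by
    have h1 : 1 / (x ^ 2 - 1) - 1 / x ^ 2 = 1 / (x ^ 2 * (x ^ 2 - 1)) := by
      field_simp
      ring
    have h3 : x ≤ x ^ 2 - 1 := by nlinarith
    have h2 : 1 / (x ^ 2 * (x ^ 2 - 1)) ≤ 1 / x ^ 3 := by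
      refine one_div_le_one_div_of_le (by positivity) ?_
      calc x ^ 3 = x ^ 2 * x := by ring
        _ ≤ x ^ 2 * (x ^ 2 - 1) := mul_le_mul_of_nonneg_left h3 (by positivity)
    linarith
  have hd0 : 0 ≤ d := le_trans (by positivity) hd1
  obtain ⟨w, hw⟩ : ∃ w : ℂ, w = s * ((Real.log (1 + 1 / x) : ℝ) : ℂ) := ⟨_, rfl⟩
  obtain ⟨v, hv⟩ : ∃ v : ℂ, v = s * (d : ℂ) := ⟨_, rfl⟩
  have hvn : ‖v‖ = ‖s‖ * d := by
    rw [hv, norm_mul, Complex.norm_real, Real.norm_eq_abs, abs_of_nonneg hd0]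
  have hv1 : ‖v‖ ≤ 2 * (‖s‖ / x ^ 2) := by
    rw [hvn]
    calc ‖s‖ * d ≤ ‖s‖ * (2 / x ^ 2) :=
          mul_le_mul_of_nonneg_left (hd2.trans hd3) (norm_nonneg s)
      _ = 2 * (‖s‖ / x ^ 2) := by ring
  have hv2 : 2 * (‖s‖ / x ^ 2) ≤ ‖s‖ / x := by
    have : 2 * (‖s‖ / x ^ 2) = (‖s‖ / x) * (2 / x) := by field_simp
    rw [this]
    refine mul_le_of_le_one_right (by positivity) ?_
    rw [div_le_one hx0]
    exact hx
  have hv3 : ‖v‖ ≤ 1 := by linarith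
  have e1 : AA s (x - 1) - AA s x = Complex.exp (-w) * (1 - Complex.exp (-v)) := by
    unfold AA
    rw [mul_sub, mul_one, ← Complex.exp_add, ← hw]
    have : -(s * ((Real.log (1 + 1 / (x - 1)) : ℝ) : ℂ)) = -w + -v := by
      rw [hw, hv, hd]
      push_cast
      ring
    rw [this]
    ring
  have e2 : ‖Complex.exp (-w) - 1‖ ≤ 2 * (‖s‖ / x) := by
    have h1 : ‖w‖ ≤ ‖s‖ / x := by rw [hw]; exact norm_w_le s (by linarith)
    have h2 := Complex.norm_exp_sub_one_le (x := -w) (by rw [norm_neg]; linarith)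
    rw [norm_neg] at h2
    linarith
  have e3 : ‖1 - Complex.exp (-v) - v‖ ≤ ‖v‖ ^ 2 := by
    have h2 := Complex.norm_exp_sub_one_sub_id_le (x := -v) (by rw [norm_neg]; exact hv3)
    rw [norm_neg] at h2
    refine le_trans (le_of_eq ?_) h2
    rw [← norm_neg]
    congr 1
    ring
  have e4 : ‖1 - Complex.exp (-v)‖ ≤ 4 * (‖s‖ / x ^ 2) := by
    have h2 := Complex.norm_exp_sub_one_le (x := -v) (by rw [norm_neg]; exact hv3)
    rw [norm_neg, norm_sub_rev] at h2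
    linarith
  have e5 : ‖v - s / x ^ 2‖ ≤ ‖s‖ ^ 2 / x ^ 3 := by
    have h1 : v - s / x ^ 2 = s * ((d - 1 / x ^ 2 : ℝ) : ℂ) := by
      rw [hv]
      push_cast
      ring
    rw [h1, norm_mul, Complex.norm_real, Real.norm_eq_abs, abs_of_nonneg (by linarith)]
    calc ‖s‖ * (d - 1 / x ^ 2) ≤ ‖s‖ * (1 / x ^ 3) :=
          mul_le_mul_of_nonneg_left hd4 (norm_nonneg s)
      _ ≤ ‖s‖ ^ 2 * (1 / x ^ 3) := by
          refine mul_le_mul_of_nonneg_right ?_ (by positivity)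
          nlinarith
      _ = ‖s‖ ^ 2 / x ^ 3 := by ring
  have e6 : ‖v‖ ^ 2 ≤ 2 * (‖s‖ ^ 2 / x ^ 3) := by
    have h1 : ‖v‖ ^ 2 ≤ (2 * (‖s‖ / x ^ 2)) ^ 2 := pow_le_pow_left₀ (norm_nonneg _) hv1 2
    have h2 : (2 * (‖s‖ / x ^ 2)) ^ 2 = 2 * (‖s‖ ^ 2 / x ^ 3) * (2 / x) := by
      field_simp
    have h3 : 2 / x ≤ 1 := by rw [div_le_one hx0]; exact hx
    have h4 : 0 ≤ 2 * (‖s‖ ^ 2 / x ^ 3) := by positivity
    rw [h2] at h1
    exact h1.trans (mul_le_of_le_one_right h4 h3)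
  have e7 : ‖(Complex.exp (-w) - 1) * (1 - Complex.exp (-v))‖ ≤ 8 * (‖s‖ ^ 2 / x ^ 3) := by
    rw [norm_mul]
    calc ‖Complex.exp (-w) - 1‖ * ‖1 - Complex.exp (-v)‖ ≤
          (2 * (‖s‖ / x)) * (4 * (‖s‖ / x ^ 2)) :=
          mul_le_mul e2 e4 (norm_nonneg _) (by positivity)
      _ = 8 * (‖s‖ ^ 2 / x ^ 3) := by field_simp; ring
  rw [e1]
  calc ‖Complex.exp (-w) * (1 - Complex.exp (-v)) - s / x ^ 2‖ =
        ‖(Complex.exp (-w) - 1) * (1 - Complex.exp (-v)) + (1 - Complex.exp (-v) - v) +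
          (v - s / x ^ 2)‖ := by congr 1; ring
    _ ≤ ‖(Complex.exp (-w) - 1) * (1 - Complex.exp (-v))‖ + ‖1 - Complex.exp (-v) - v‖ +
          ‖v - s / x ^ 2‖ := norm_add₃_le
    _ ≤ 11 * (‖s‖ ^ 2 / x ^ 3) := by linarith

/-- the weights have differences close to `1 / s` -/
lemma weight {s : ℂ} {x : ℝ} (hx : 2 ≤ x) (hs : 1 ≤ ‖s‖) (h : ‖s‖ / (x - 1) ≤ 3 / 5) :
    ‖(AA s x)⁻¹ - (AA s (x - 1))⁻¹ - 1 / s‖ ≤ 775 / x := by
  have hx0 : 0 < x := by linarith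
  have hx1 : 1 ≤ x - 1 := by linarith
  have hsx : ‖s‖ / x ≤ 3 / 5 :=
    (div_le_div_of_nonneg_left (norm_nonneg s) (by linarith) (by linarith)).trans h
  have hs0 : s ≠ 0 := by
    intro h0
    rw [h0, norm_zero] at hs
    linarith
  have a1 := AA_low (s := s) (y := x) (by linarith) hsx
  have a2 := AA_low hx1 h
  have a3 : ‖s‖ / (5 * x) ≤ ‖AA s (x - 1)‖ :=
    (div_le_div_of_nonneg_left (norm_nonneg s) (by linarith) (by linarith)).trans a2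
  have b1 := AA_near (s := s) (x := x) (by linarith) hs (hsx.trans (by norm_num))
  have b2 := AA_near' hx hs (h.trans (by norm_num))
  have b3 := AA_diff hx hs h
  have hq : 0 < ‖s‖ / (5 * x) := by positivity
  have hA : AA s x ≠ 0 := by
    rw [← norm_pos_iff]
    linarith
  have hB : AA s (x - 1) ≠ 0 := by
    rw [← norm_pos_iff]
    linarith
  obtain ⟨A, hAe⟩ : ∃ A, A = AA s x := ⟨_, rfl⟩
  obtain ⟨B, hBe⟩ : ∃ B, B = AA s (x - 1) := ⟨_, rfl⟩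
  rw [← hAe] at a1 b1 b3 hA ⊢
  rw [← hBe] at a3 b2 b3 hB ⊢
  have hxc : (x : ℂ) ≠ 0 := by exact_mod_cast hx0.ne'
  have e1 : A⁻¹ - B⁻¹ - 1 / s = (s * (B - A) - A * B) / (s * A * B) := by
    field_simp
  have e2 : s * (B - A) - A * B = s * (B - A - s / x ^ 2) - (s / x) * ((A - s / x) + (B - s / x)) -
      (A - s / x) * (B - s / x) := by
    field_simp
    ring
  have e3 : ‖s * (B - A) - A * B‖ ≤ 31 * (‖s‖ / x) ^ 3 := by
    rw [e2]
    have c1 : ‖s * (B - A - s / x ^ 2)‖ ≤ 11 * (‖s‖ / x) ^ 3 := by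
      rw [norm_mul]
      calc ‖s‖ * ‖B - A - s / x ^ 2‖ ≤ ‖s‖ * (11 * (‖s‖ ^ 2 / x ^ 3)) :=
            mul_le_mul_of_nonneg_left b3 (norm_nonneg s)
        _ = 11 * (‖s‖ / x) ^ 3 := by rw [div_pow]; ring
    have c0 : ‖s / (x : ℂ)‖ = ‖s‖ / x := by
      rw [norm_div, Complex.norm_real, Real.norm_eq_abs, abs_of_pos hx0]
    have c2 : ‖(s / x) * ((A - s / x) + (B - s / x))‖ ≤ 8 * (‖s‖ / x) ^ 3 := by
      rw [norm_mul, c0]
      have := (norm_add_le (A - s / x) (B - s / x)).trans (add_le_add b1 b2)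
      calc ‖s‖ / x * ‖(A - s / x) + (B - s / x)‖ ≤
            ‖s‖ / x * (2 * (‖s‖ / x) ^ 2 + 6 * (‖s‖ / x) ^ 2) :=
            mul_le_mul_of_nonneg_left this (by positivity)
        _ = 8 * (‖s‖ / x) ^ 3 := by ring
    have c3 : ‖(A - s / x) * (B - s / x)‖ ≤ 12 * (‖s‖ / x) ^ 3 := by
      rw [norm_mul]
      have h1 : ‖A - s / x‖ * ‖B - s / x‖ ≤ (2 * (‖s‖ / x) ^ 2) * (6 * (‖s‖ / x) ^ 2) :=
        mul_le_mul b1 b2 (norm_nonneg _) (by positivity)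
      have h2 : (2 * (‖s‖ / x) ^ 2) * (6 * (‖s‖ / x) ^ 2) = 12 * (‖s‖ / x) ^ 3 * (‖s‖ / x) := by
        ring
      have h3 : 0 ≤ 12 * (‖s‖ / x) ^ 3 := by positivity
      rw [h2] at h1
      exact h1.trans (mul_le_of_le_one_right h3 (by linarith))
    refine (norm_sub_le _ _).trans ?_
    have := norm_sub_le (s * (B - A - s / x ^ 2)) ((s / x) * ((A - s / x) + (B - s / x)))
    linarith
  rw [e1, norm_div, norm_mul, norm_mul]
  have hden : ‖s‖ * (‖s‖ / (5 * x)) * (‖s‖ / (5 * x)) ≤ ‖s‖ * ‖A‖ * ‖B‖ :=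
    mul_le_mul (mul_le_mul_of_nonneg_left a1 (norm_nonneg s)) a3 hq.le (by positivity)
  calc ‖s * (B - A) - A * B‖ / (‖s‖ * ‖A‖ * ‖B‖) ≤
        (31 * (‖s‖ / x) ^ 3) / (‖s‖ * (‖s‖ / (5 * x)) * (‖s‖ / (5 * x))) :=
        div_le_div₀ (by positivity) e3 (by positivity) hden
    _ = 775 / x := by
        have : ‖s‖ ≠ 0 := by linarith
        field_simp
        ring

/-- summation by parts -/
lemma parts (a c : ℕ → ℂ) (s : ℂ) (N : ℕ)
    (h : ∀ n, N < n → c n * (a n - a (n + 1)) = a n) (M : ℕ) (hM : N ≤ M) :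
    (1 - 1 / s) * ∑ n ∈ Ioc N M, a n = c N * a (N + 1) - c M * a (M + 1) +
      ∑ n ∈ Ioc N M, a n * (c n - c (n - 1) - 1 / s) := by
  induction M, hM using Nat.le_induction with
  | base => simp
  | succ M hM ih =>
    rw [Finset.sum_Ioc_succ_top (by omega), Finset.sum_Ioc_succ_top (by omega), mul_add, ih]
    have h1 := h (M + 1) (by omega)
    rw [Nat.add_sub_cancel]
    linear_combination -h1

lemma sum_bound {N : ℕ} (hN : 1 ≤ N) (M : ℕ) (hM : N ≤ M) :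
    ∑ n ∈ Ioc N M, 1 / (Real.sqrt n * n) ≤ 2 / Real.sqrt N - 2 / Real.sqrt M := by
  induction M, hM using Nat.le_induction with
  | base => simp
  | succ M hM ih =>
    rw [Finset.sum_Ioc_succ_top (by omega)]
    have hM0 : (0 : ℝ) < M := by exact_mod_cast (by omega : 0 < M)
    have key : 1 / (Real.sqrt ((M + 1 : ℕ) : ℝ) * ((M + 1 : ℕ) : ℝ)) ≤
        2 / Real.sqrt M - 2 / Real.sqrt ((M + 1 : ℕ) : ℝ) := by
      push_cast
      obtain ⟨p, hp⟩ : ∃ p, p = Real.sqrt (M : ℝ) := ⟨_, rfl⟩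
      obtain ⟨q, hq⟩ : ∃ q, q = Real.sqrt ((M : ℝ) + 1) := ⟨_, rfl⟩
      have hp0 : 0 < p := hp ▸ Real.sqrt_pos.2 hM0
      have hq0 : 0 < q := hq ▸ Real.sqrt_pos.2 (by linarith)
      have hp2 : p ^ 2 = M := by rw [hp, Real.sq_sqrt hM0.le]
      have hq2 : q ^ 2 = M + 1 := by rw [hq, Real.sq_sqrt (by linarith)]
      have hpq : p ≤ q := by rw [hp, hq]; exact Real.sqrt_le_sqrt (by linarith)
      rw [← hp, ← hq, ← hq2]
      have e1 : 2 / p - 2 / q = 2 * (q - p) / (p * q) := by field_simp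
      have e2 : (q - p) * (q + p) = 1 := by nlinarith
      have e3 : 1 / (2 * q) ≤ q - p := by
        rw [div_le_iff₀ (by linarith)]
        nlinarith
      rw [e1, div_le_div_iff₀ (by positivity) (by positivity)]
      have e4 : 1 ≤ (q - p) * (2 * q) := by
        rw [div_le_iff₀ (by linarith)] at e3
        exact e3
      nlinarith [mul_pos hq0 hq0, mul_pos hp0 hq0]
    linarith

/-- the ratio of two consecutive members -/
lemma ratio (s : ℂ) {n : ℕ} (hn : 1 ≤ n) :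
    ((n : ℂ) ^ (-s)) * AA s n = (n : ℂ) ^ (-s) - ((n + 1 : ℕ) : ℂ) ^ (-s) := by
  have hn0 : (0 : ℝ) < n := by exact_mod_cast hn
  have h1 : (n : ℂ) ≠ 0 := by exact_mod_cast hn0.ne'
  have h2 : ((n + 1 : ℕ) : ℂ) ≠ 0 := by exact_mod_cast (Nat.succ_ne_zero n)
  have h3 : ((n + 1 : ℕ) : ℂ) ^ (-s) = (n : ℂ) ^ (-s) *
      Complex.exp (-(s * ((Real.log (1 + 1 / (n : ℝ)) : ℝ) : ℂ))) := by
    rw [Complex.cpow_def_of_ne_zero h1, Complex.cpow_def_of_ne_zero h2, ← Complex.exp_add]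
    congr 1
    rw [← Complex.natCast_log, ← Complex.natCast_log]
    have h4 : Real.log ((n + 1 : ℕ) : ℝ) = Real.log n + Real.log (1 + 1 / (n : ℝ)) := by
      rw [← Real.log_mul hn0.ne' (by positivity)]
      congr 1
      push_cast
      field_simp
    rw [h4]
    push_cast
    ring
  rw [h3]
  unfold AA
  ring

end Pool.Agent.Y210.R9
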