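import Pool.Agent.Y210.R9.Core

/-!
# The zeta function on the critical line is close to its partial sum of length about `t`
-/

set_option autoImplicit false

namespace Pool.Agent.Y210.R9

open Finset Filter Topology

theorem zap0 (t : ℝ) (N : ℕ) (ht : 1 ≤ t) (hN : 2 * t ≤ N) (hN' : (N : ℝ) ≤ 5 * t) :
    ‖riemannZeta (1 / 2 + t * Complex.I) -
      ∑ n ∈ Icc 1 N, (n : ℂ) ^ (-(1 / 2 + t * Complex.I))‖ ≤ 1575 * t ^ (-(1 / 2) : ℝ) := by
  obtain ⟨s, hs⟩ : ∃ s : ℂ, s = 1 / 2 + t * Complex.I := ⟨_, rfl⟩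
  rw [← hs]
  have hre : s.re = 1 / 2 := by rw [hs]; simp
  have him : s.im = t := by rw [hs]; simp
  have hN2 : (2 : ℝ) ≤ N := by linarith
  have hN1 : 1 ≤ N := by exact_mod_cast (by linarith : (1 : ℝ) ≤ N)
  have hσ1 : t ≤ ‖s‖ := by
    have := Complex.abs_im_le_norm s
    rw [him, abs_of_pos (by linarith)] at this
    exact this
  have hσ2 : ‖s‖ ≤ 6 / 5 * t := by
    have h1 : ‖s‖ ^ 2 = s.re * s.re + s.im * s.im := by
      rw [← Complex.normSq_eq_norm_sq, Complex.normSq_apply]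
    rw [hre, him] at h1
    have h2 : 0 ≤ ‖s‖ := norm_nonneg s
    refine le_of_sq_le_sq ?_ (by linarith)
    rw [h1]
    nlinarith
  have hs1 : 1 ≤ ‖s‖ := by linarith
  have hs0 : s ≠ 0 := by
    intro h0
    rw [h0, norm_zero] at hs1
    linarith
  have hs1' : s ≠ 1 := by
    intro h0
    rw [h0] at him
    simp at him
    linarith
  have hσN : ∀ y : ℝ, (N : ℝ) ≤ y → ‖s‖ / y ≤ 3 / 5 := by
    intro y hy
    rw [div_le_iff₀ (by linarith)]
    nlinarith
  obtain ⟨a, ha⟩ : ∃ a : ℕ → ℂ, a = fun n : ℕ => (n : ℂ) ^ (-s) := ⟨_, rfl⟩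
  obtain ⟨c, hc⟩ : ∃ c : ℕ → ℂ, c = fun n : ℕ => (AA s n)⁻¹ := ⟨_, rfl⟩
  have hAne : ∀ n : ℕ, N ≤ n → AA s n ≠ 0 := by
    intro n hn
    have hn' : (N : ℝ) ≤ n := by exact_mod_cast hn
    have h1 := AA_low (s := s) (y := n) (by linarith) (hσN n hn')
    have h2 : 0 < ‖s‖ / (5 * (n : ℝ)) := by
      have : 0 < (n : ℝ) := by linarith
      positivity
    rw [← norm_pos_iff]
    linarith
  have hcA : ∀ n : ℕ, N ≤ n → c n * (a n - a (n + 1)) = a n := by
    intro n hn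
    have h1 := ratio s (n := n) (by omega)
    rw [hc, ha]
    show (AA s n)⁻¹ * ((n : ℂ) ^ (-s) - ((n + 1 : ℕ) : ℂ) ^ (-s)) = (n : ℂ) ^ (-s)
    rw [← h1]
    have := hAne n hn
    field_simp
  have hcn : ∀ n : ℕ, N ≤ n → ‖c n‖ ≤ 5 * n / ‖s‖ := by
    intro n hn
    have hn' : (N : ℝ) ≤ n := by exact_mod_cast hn
    have h1 := AA_low (s := s) (y := n) (by linarith) (hσN n hn')
    have hn0 : 0 < (n : ℝ) := by linarith
    have h2 : 0 < ‖s‖ / (5 * (n : ℝ)) := by positivity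
    rw [hc]
    show ‖(AA s n)⁻¹‖ ≤ _
    rw [norm_inv]
    calc ‖AA s n‖⁻¹ ≤ (‖s‖ / (5 * (n : ℝ)))⁻¹ := inv_anti₀ h2 h1
      _ = 5 * n / ‖s‖ := inv_div _ _
  have han : ∀ n : ℕ, 1 ≤ n → ‖a n‖ = 1 / Real.sqrt n := by
    intro n hn
    rw [ha]
    show ‖(n : ℂ) ^ (-s)‖ = _
    rw [Complex.norm_natCast_cpow_of_pos (by omega), Complex.neg_re, hre, Real.rpow_neg (by positivity),
      Real.sqrt_eq_rpow]
    exact (one_div _).symm
  have hw : ∀ n : ℕ, N < n → ‖a n * (c n - c (n - 1) - 1 / s)‖ ≤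
      775 * (1 / (Real.sqrt n * n)) := by
    intro n hn
    have hn' : (N : ℝ) + 1 ≤ n := by exact_mod_cast hn
    have h1 := weight (s := s) (x := n) (by linarith) hs1 (hσN _ (by linarith))
    have h2 : c (n - 1) = (AA s ((n : ℝ) - 1))⁻¹ := by
      rw [hc]
      show (AA s ((n - 1 : ℕ) : ℝ))⁻¹ = _
      rw [Nat.cast_sub (by omega), Nat.cast_one]
    have h3 : c n = (AA s (n : ℝ))⁻¹ := by rw [hc]
    rw [h2, h3, norm_mul, han n (by omega)]
    calc 1 / Real.sqrt n * ‖(AA s (n : ℝ))⁻¹ - (AA s ((n : ℝ) - 1))⁻¹ - 1 / s‖ ≤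
          1 / Real.sqrt n * (775 / n) :=
          mul_le_mul_of_nonneg_left h1 (by positivity)
      _ = 775 * (1 / (Real.sqrt n * n)) := by
          have : 0 < (n : ℝ) := by linarith
          have : 0 < Real.sqrt n := Real.sqrt_pos.2 this
          field_simp
  have hsum : ∀ M : ℕ, N ≤ M → ‖∑ n ∈ Ioc N M, a n * (c n - c (n - 1) - 1 / s)‖ ≤
      1550 / Real.sqrt N := by
    intro M hM
    calc ‖∑ n ∈ Ioc N M, a n * (c n - c (n - 1) - 1 / s)‖ ≤
          ∑ n ∈ Ioc N M, 775 * (1 / (Real.sqrt n * n)) :=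
          norm_sum_le_of_le _ fun n hn => hw n (Finset.mem_Ioc.1 hn).1
      _ = 775 * ∑ n ∈ Ioc N M, 1 / (Real.sqrt n * n) := by rw [Finset.mul_sum]
      _ ≤ 775 * (2 / Real.sqrt N - 2 / Real.sqrt M) :=
          mul_le_mul_of_nonneg_left (sum_bound hN1 M hM) (by norm_num)
      _ ≤ 1550 / Real.sqrt N := by
          have : 0 ≤ 2 / Real.sqrt (M : ℝ) := by positivity
          have h2 : 1550 / Real.sqrt (N : ℝ) = 775 * (2 / Real.sqrt (N : ℝ)) := by ring
          rw [h2]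
          linarith
  have hstart : ‖c N * a (N + 1)‖ ≤ 25 / Real.sqrt N := by
    rw [norm_mul, han (N + 1) (by omega)]
    have h1 : ‖c N‖ ≤ 25 := by
      refine (hcn N le_rfl).trans ?_
      rw [div_le_iff₀ (by linarith)]
      nlinarith
    have h2 : 1 / Real.sqrt ((N + 1 : ℕ) : ℝ) ≤ 1 / Real.sqrt N := by
      refine one_div_le_one_div_of_le (Real.sqrt_pos.2 (by linarith)) (Real.sqrt_le_sqrt ?_)
      push_cast
      linarith
    calc ‖c N‖ * (1 / Real.sqrt ((N + 1 : ℕ) : ℝ)) ≤ 25 * (1 / Real.sqrt N) :=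
          mul_le_mul h1 h2 (by positivity) (by norm_num)
      _ = 25 / Real.sqrt N := by ring
  -- the other end
  have hend : ∀ M : ℕ, N ≤ M → ‖(M : ℂ) ^ (1 - s) / s - c M * a (M + 1)‖ ≤ 11 * ‖a M‖ := by
    intro M hM
    have hM' : (N : ℝ) ≤ M := by exact_mod_cast hM
    have hM0 : 0 < (M : ℝ) := by linarith
    have hMc : (M : ℂ) ≠ 0 := by exact_mod_cast hM0.ne'
    have e1 : (M : ℂ) ^ (1 - s) = M * a M := by
      rw [ha, sub_eq_add_neg, Complex.cpow_add _ _ hMc, Complex.cpow_one]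
    have e2 : c M * a (M + 1) = c M * a M - a M := by
      linear_combination -hcA M hM
    have e3 : (M : ℂ) ^ (1 - s) / s - c M * a (M + 1) = a M * (M / s - c M + 1) := by
      rw [e1, e2]
      ring
    rw [e3, norm_mul, mul_comm]
    refine mul_le_mul_of_nonneg_right ?_ (norm_nonneg _)
    have hA := hAne M hM
    have n1 := AA_near (s := s) (x := M) (by linarith) hs1 ((hσN M hM').trans (by norm_num))
    have n2 := AA_low (s := s) (y := M) (by linarith) (hσN M hM')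
    have hq : 0 < ‖s‖ / (5 * (M : ℝ)) := by positivity
    have e4 : (M : ℂ) / s - c M = M * (AA s M - s / ((M : ℝ) : ℂ)) / (s * AA s M) := by
      rw [hc]
      show (M : ℂ) / s - (AA s (M : ℝ))⁻¹ = _
      rw [Complex.ofReal_natCast]
      field_simp
    have e5 : ‖(M : ℂ) / s - c M‖ ≤ 10 := by
      rw [e4, norm_div, norm_mul, norm_mul, Complex.norm_natCast]
      have h1 : (M : ℝ) * ‖AA s M - s / ((M : ℝ) : ℂ)‖ ≤ M * (2 * (‖s‖ / M) ^ 2) :=
        mul_le_mul_of_nonneg_left n1 hM0.le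
      have h2 : ‖s‖ * (‖s‖ / (5 * M)) ≤ ‖s‖ * ‖AA s M‖ :=
        mul_le_mul_of_nonneg_left n2 (norm_nonneg s)
      calc (M : ℝ) * ‖AA s M - s / ((M : ℝ) : ℂ)‖ / (‖s‖ * ‖AA s M‖) ≤
            M * (2 * (‖s‖ / M) ^ 2) / (‖s‖ * (‖s‖ / (5 * M))) :=
            div_le_div₀ (by positivity) h1 (by positivity) h2
        _ = 10 := by
            have : ‖s‖ ≠ 0 := by linarith
            field_simp
            ring
    have h6 := norm_add_le ((M : ℂ) / s - c M) 1
    rw [norm_one] at h6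
    linarith
  -- the approximation
  obtain ⟨g, hg⟩ : ∃ g : ℕ → ℂ, g = fun M : ℕ => (1 - 1 / s) * (-((M : ℂ) ^ (-s) / 2) +
      s * (M : ℂ) ^ (-s - 1) / 12) := ⟨_, rfl⟩
  have hem : ∀ M : ℕ, N ≤ M → (1 - 1 / s) * (Pool.Agent.H401R2.emE M s - ∑ n ∈ Icc 1 N, a n) =
      c N * a (N + 1) + (∑ n ∈ Ioc N M, a n * (c n - c (n - 1) - 1 / s)) +
        ((M : ℂ) ^ (1 - s) / s - c M * a (M + 1)) + g M := by
    intro M hM
    have h1 := parts a c s N (fun n hn => hcA n hn.le) M hM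
    have h2 : ZU.DN M s = ∑ n ∈ Icc 1 N, a n + ∑ n ∈ Ioc N M, a n := by
      unfold ZU.DN
      rw [ha]
      have h3 : Icc 1 M = Ioc 0 M := by ext; simp [Finset.mem_Icc, Finset.mem_Ioc]; omega
      have h4 : Icc 1 N = Ioc 0 N := by ext; simp [Finset.mem_Icc, Finset.mem_Ioc]; omega
      rw [h3, h4]
      exact (Finset.sum_Ioc_consecutive _ (Nat.zero_le N) hM).symm
    unfold Pool.Agent.H401R2.emE
    rw [h2, hg]
    have h5 : (1 - 1 / s) * ((M : ℂ) ^ (1 - s) / (s - 1)) = (M : ℂ) ^ (1 - s) / s := by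
      have : s - 1 ≠ 0 := sub_ne_zero.2 hs1'
      field_simp
    linear_combination h1 + h5
  have hgt : Tendsto (fun M : ℕ => ‖g M‖ + 11 * ‖a M‖) atTop (𝓝 0) := by
    have h0 : ∀ c : ℂ, c.re < 0 → Tendsto (fun N : ℕ => (N : ℂ) ^ c) atTop (𝓝 0) := by
      intro c hc
      rw [tendsto_zero_iff_norm_tendsto_zero]
      have h1 : Tendsto (fun N : ℕ => ((N : ℕ) : ℝ) ^ c.re) atTop (𝓝 0) := by
        have := (tendsto_rpow_neg_atTop (y := -c.re) (by linarith)).comp tendsto_natCast_atTop_atTop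
        simpa [Function.comp_def] using this
      refine h1.congr' ?_
      filter_upwards [eventually_gt_atTop 0] with N hN
      rw [Complex.norm_natCast_cpow_of_pos hN]
    have h1 := h0 (-s) (by rw [Complex.neg_re, hre]; norm_num)
    have h2 := h0 (-s - 1) (by rw [Complex.sub_re, Complex.neg_re, hre]; norm_num)
    have h3 : Tendsto g atTop (𝓝 0) := by
      rw [hg]
      have := (((h1.div_const 2).neg).add ((h2.const_mul s).div_const 12)).const_mul (1 - 1 / s)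
      simpa using this
    have h4 : Tendsto a atTop (𝓝 0) := by rw [ha]; exact h1
    have := h3.norm.add (h4.norm.const_mul 11)
    simpa using this
  have hlim : Tendsto (fun M : ℕ => ‖(1 - 1 / s) * (Pool.Agent.H401R2.emE M s -
      ∑ n ∈ Icc 1 N, a n)‖) atTop (𝓝 ‖(1 - 1 / s) * (riemannZeta s - ∑ n ∈ Icc 1 N, a n)‖) :=
    ((((Pool.Agent.H401R2.tendsto_emE s (by rw [hre]; norm_num) hs1').sub_const _).const_mul _)).norm
  have hlim2 : Tendsto (fun M : ℕ => 1575 / Real.sqrt N + (‖g M‖ + 11 * ‖a M‖)) atTop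
      (𝓝 (1575 / Real.sqrt N + 0)) := tendsto_const_nhds.add hgt
  rw [add_zero] at hlim2
  have hfin := le_of_tendsto_of_tendsto hlim hlim2 (by
    filter_upwards [eventually_ge_atTop N] with M hM
    rw [hem M hM]
    have k1 := hsum M hM
    have k2 := hend M hM
    have k3 : ∀ x y z w : ℂ, ‖x + y + z + w‖ ≤ ‖x‖ + ‖y‖ + ‖z‖ + ‖w‖ := by
      intro x y z w
      refine (norm_add_le _ _).trans ?_
      have := norm_add₃_le (a := x) (b := y) (c := z)
      linarith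
    refine (k3 _ _ _ _).trans ?_
    have k4 : 1575 / Real.sqrt (N : ℝ) = 25 / Real.sqrt N + 1550 / Real.sqrt N := by ring
    rw [k4]
    linarith)
  have hone : ‖(1 : ℂ) - 1 / s‖ = 1 := by
    have h1 : (1 : ℂ) - 1 / s = (s - 1) / s := by field_simp
    rw [h1, norm_div]
    have h2 : ‖s - 1‖ = ‖s‖ := by
      have h3 : ‖s - 1‖ ^ 2 = ‖s‖ ^ 2 := by
        rw [← Complex.normSq_eq_norm_sq, ← Complex.normSq_eq_norm_sq, Complex.normSq_apply,
          Complex.normSq_apply, Complex.sub_re, Complex.sub_im, Complex.one_re, Complex.one_im, hre]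
        ring
      exact (pow_left_inj₀ (norm_nonneg _) (norm_nonneg _) two_ne_zero).1 h3
    rw [h2, div_self (by linarith)]
  rw [norm_mul, hone, one_mul, ha] at hfin
  refine hfin.trans ?_
  have h1 : t ^ (-(1 / 2) : ℝ) = 1 / Real.sqrt t := by
    rw [Real.rpow_neg (by linarith), Real.sqrt_eq_rpow]
    exact (one_div _).symm
  rw [h1, mul_one_div]
  exact div_le_div_of_nonneg_left (by norm_num) (Real.sqrt_pos.2 (by linarith))
    (Real.sqrt_le_sqrt (by linarith))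

end Pool.Agent.Y210.R9
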