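import Pool.Agent.Y766.R9.Stm
import Pool.Agent.Y210.R9.Zap0

/-! The statement `S_ZAP`. -/

set_option autoImplicit false

namespace Pool.Agent.Y210.R9

theorem zap : Pool.Agent.Y766.R9.S_ZAP := ⟨1575, by norm_num, zap0⟩

end Pool.Agent.Y210.R9
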